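import Pool.Agent.N65.GP.Defs

/-! # CIR: the circles at infinity exist -/

set_option autoImplicit false

namespace Pool.Agent.N415.GP

open Pool.Agent.N65.GP

theorem t_CIR : S_CIR := by
  intro k C R b ρ hρ
  have hρ0 : 0 < ρ := lt_trans b.pos hρ
  let x : ℝ → ℂ := fun t => ρ * Complex.exp (2 * Real.pi * t * Complex.I)
  have hxn : ∀ t, R < ‖x t‖ := by
    intro t
    have h1 : ‖x t‖ = ρ := by
      show ‖(ρ : ℂ) * Complex.exp (2 * Real.pi * t * Complex.I)‖ = ρ
      rw [norm_mul, show (2 * (Real.pi : ℂ) * (t : ℂ) * Complex.I) = ((2 * Real.pi * t : ℝ) : ℂ) * Complex.I by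
        push_cast; ring, Complex.norm_exp_ofReal_mul_I, mul_one, Complex.norm_real, Real.norm_eq_abs,
        abs_of_pos hρ0]
    rw [h1]; exact hρ
  have hx : ContDiff ℝ 1 x := by
    have h0 : ContDiff ℝ 1 (fun t : ℝ => (t : ℂ)) := Complex.ofRealCLM.contDiff
    exact contDiff_const.mul (((contDiff_const.mul h0).mul contDiff_const).cexp)
  have hpx : ∀ t, x (t + 1) = x t := by
    intro t
    show (ρ : ℂ) * Complex.exp (2 * Real.pi * ((t + 1 : ℝ) : ℂ) * Complex.I)
      = ρ * Complex.exp (2 * Real.pi * t * Complex.I)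
    rw [show (2 * (Real.pi : ℂ) * ((t + 1 : ℝ) : ℂ) * Complex.I)
      = 2 * Real.pi * t * Complex.I + 2 * Real.pi * Complex.I by push_cast; ring,
      Complex.exp_add, Complex.exp_two_pi_mul_I, mul_one]
  have hy : ∀ i, ContDiff ℝ 1 (fun t => b.yb i (x t)) := by
    intro i
    have ho : IsOpen {c : ℂ | R < ‖c‖} := isOpen_lt continuous_const continuous_norm
    have h1 : ContDiffOn ℝ 1 (b.yb i) {c : ℂ | R < ‖c‖} :=
      ((b.diffY i).contDiffOn ho).restrict_scalars ℝ
    exact h1.comp_contDiff hx hxn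
  refine ⟨fun i => ⟨x, fun t => b.yb i (x t), hx, hy i, hpx, fun t => by rw [hpx]⟩, ?_, ?_⟩
  · intro i
    exact ⟨fun t => rfl, fun t => rfl⟩
  · intro i t
    refine ⟨(b.rootY (x t) (hxn t) _).2 ⟨i, rfl⟩, Or.inr (b.Fy_ne i (x t) (hxn t))⟩

end Pool.Agent.N415.GP
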